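import Pool.Agent.Helper89K9.MA.Stm4
import Pool.Agent.Helper88K9.MA.Pm

/-!
# Project MA, version 2: [PG1] and [PG2]
-/

set_option autoImplicit false

namespace Pool.Agent.Helper30K9.MA

open Finset
open Pool.Agent.H699R2.OMV (Vec Mat)
open Pool.Agent.Helper89K9.MA

theorem zm_mulVec {n K : ℕ} (π : Fin n → Option (Fin K)) (z : Fin n × Fin K → Bool)
    (u : Vec n) (r : Fin n) :
    (zm π z).mulVec u r = ∑ k, (if z (r, k) then 1 else 0) * clsum π u k :=
  Pool.Agent.Helper88K9.MA.row_sum π (fun k => if z (r, k) then 1 else 0) u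

theorem pm_eq {n K : ℕ} (π : Fin n → Option (Fin K)) (X : Mat n) (z : Fin n × Fin K → Bool) :
    pm π X z = X + zm π z := rfl

/-- the products with the earlier vectors do not change -/
theorem map_eq {n K : ℕ} (π : Fin n → Option (Fin K)) (h : List (Vec n)) (v : Vec n)
    (hs : Sep π h v) (G : List (Vec n) → (Mat n)ˣ) (X : Mat n) (z : Fin n × Fin K → Bool) :
    h.map (pmg π h G X z).mulVec = h.map X.mulVec := by
  apply List.map_congr_left
  intro u hu
  have h1 : (zm π z).mulVec u = 0 := by
    funext r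
    rw [zm_mulVec]
    simp [hs.1 u hu]
  unfold pmg
  rw [Matrix.add_mulVec, ← Matrix.mulVec_mulVec, h1, Matrix.mulVec_zero, add_zero]

/-- **PG1.** -/
theorem pg1 : S_PG1 := by
  intro n K π h v hs G X z
  refine ⟨map_eq π h v hs G X z, ?_, ?_⟩
  · have h1 : (zm π z).mulVec v = par z := by
      funext r
      rw [zm_mulVec]
      simp [hs.2, par]
    unfold pmg
    have h2 : ∀ (U : (Mat n)ˣ), (U : Mat n).mulVec (((↑U⁻¹ : Mat n) * zm π z).mulVec v) = par z := by
      intro U
      rw [Matrix.mulVec_mulVec, ← mul_assoc, Units.mul_inv, one_mul, h1]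
    rw [Matrix.add_mulVec, Matrix.mulVec_add, h2]
  · unfold pmg
    rw [pm_eq, mul_add, ← mul_assoc, Units.mul_inv, one_mul]

/-- **PG2.** -/
theorem pg2 : S_PG2 := by
  intro n K π h v hs G F
  rw [Finset.sum_comm]
  have h1 : ∀ z : Fin n × Fin K → Bool, ∑ X, F (pmg π h G X z) = ∑ M, F M := by
    intro z
    have hinv : Function.Involutive (fun X : Mat n => pmg π h G X z) := by
      intro X
      show pmg π h G (pmg π h G X z) z = X
      have h2 := map_eq π h v hs G X z
      have h3 : pmg π h G (pmg π h G X z) z =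
          pmg π h G X z + (↑(G (h.map (pmg π h G X z).mulVec))⁻¹ : Mat n) * zm π z := rfl
      rw [h3, h2]
      show X + (↑(G (h.map X.mulVec))⁻¹ : Mat n) * zm π z +
        (↑(G (h.map X.mulVec))⁻¹ : Mat n) * zm π z = X
      rw [add_assoc]
      have h4 : ∀ A : Mat n, A + A = 0 := by
        intro A
        ext i j
        exact CharTwo.add_self_eq_zero (A i j)
      rw [h4, add_zero]
    exact Equiv.sum_comp hinv.toPerm F
  simp only [h1]
  rw [Finset.sum_const, Finset.card_univ, nsmul_eq_mul]
  congr 1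
  simp

end Pool.Agent.Helper30K9.MA
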