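import Pool.Agent.Helper89K9.MA.Stm4
import Pool.Agent.Helper88K9.MA.Pm

/-!
# Project MA, version 2: [PG3]
-/

set_option autoImplicit false

namespace Pool.Agent.Helper30K9.MA

open Finset
open H746R3.Inv (LD bK)
open Pool.Agent.TH163.AC3 (HasDT hasDT_const)
open Pool.Agent.H699R2.OMV (Vec Mat)
open Pool.Agent.Helper89K9.MA

theorem mbits_pm {n K : ℕ} (π : Fin n → Option (Fin K)) (X : Mat n) (z : Fin n × Fin K → Bool)
    (r j : Fin n) : mbits (pm π X z) (r, j) = decide (X r j +
      (π j).elim 0 (fun k => if z (r, k) then (1 : ZMod 2) else 0) = 1) := rfl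

/-- **PG3.** -/
theorem pg3 : S_PG3 := by
  intro n K π X
  refine ⟨fun c => ?_, fun p _ => ?_⟩
  · obtain ⟨r, j⟩ := c
    cases hπ : π j with
    | none =>
      apply hasDT_const (decide (X r j = 1))
      intro z
      rw [mbits_pm, hπ]
      simp
    | some k =>
      refine ⟨TH163.AC3.Tree.node (r, k) (TH163.AC3.Tree.leaf (decide (X r j + 0 = 1)))
        (TH163.AC3.Tree.leaf (decide (X r j + 1 = 1))), ?_, ?_⟩
      · simp [TH163.AC3.Tree.depth]
      · intro z
        show _ = mbits (pm π X z) (r, j)
        rw [mbits_pm, hπ]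
        show (if z (r, k) = true then decide (X r j + (1 : ZMod 2) = 1) else
          decide (X r j + (0 : ZMod 2) = 1)) =
            decide (X r j + (if z (r, k) = true then (1 : ZMod 2) else 0) = 1)
        cases z (r, k) <;> simp
  · have key : ∀ c, (fun z => (bK (mbits (pm π X z) c) : ZMod p)) ∈
        LD (ZMod p) (Fin n × Fin K) 1 := by
      rintro ⟨r, j⟩
      cases hj : π j with
      | none =>
        have e : (fun z : Fin n × Fin K → Bool => (bK (mbits (pm π X z) (r, j)) : ZMod p)) =
            fun _ => bK (decide (X r j = 1)) := by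
          funext z
          simp [mbits, pm, hj]
        rw [e]
        exact H746R3.Inv.const_mem _ _
      | some k =>
        have e : (fun z : Fin n × Fin K → Bool => (bK (mbits (pm π X z) (r, j)) : ZMod p)) =
            fun z => (fun b : Bool => (bK (decide (X r j + (if b then 1 else 0) = 1)) : ZMod p))
              (z (r, k)) := by
          funext z
          simp [mbits, pm, hj]
        rw [e]
        exact H746R3.Inv.bit_mem (K := ZMod p) (V := Fin n × Fin K)
          (fun b : Bool => (bK (decide (X r j + (if b then 1 else 0) = 1)) : ZMod p)) (r, k)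
    refine ⟨key, fun D P hP => ?_⟩
    exact Pool.Agent.Helper88K9.MA.eval_mem
      (fun c z => (if mbits (pm π X z) c then (1 : ZMod p) else 0)) key D P hP

end Pool.Agent.Helper30K9.MA
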